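import Pool.Agent.helper17.EXT.Spec

set_option autoImplicit false

open Finset

namespace Pool.Agent.EXT

open Pool.Agent.EXC

/-- root elements of two roots with product `-1` do not commute at `E (-θ - β)` -/
theorem TFS_m1 {K : Type} [Field K] {θ β : Fin 6 → ℤ} (hθ : ip C6 θ θ = 2) (hβ : ip C6 β β = 2) (h : ip C6 θ β = -1)
    (key : xe C6 (E C6 θ) 1 (xe C6 (E C6 β) 1 (E C6 (-θ - β) : Lm C6 K)) =
      xe C6 (E C6 β) 1 (xe C6 (E C6 θ) 1 (E C6 (-θ - β) : Lm C6 K))) : False := by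
  have hβθ : ip C6 β θ = -1 := by rw [ip_comm]; exact h
  set γ : Fin 6 → ℤ := -θ - β with hγdef
  have hγ : ip C6 γ γ = 2 := by
    rw [hγdef, ip_sub_left, ip_sub_right, ip_sub_right, ip_neg_left, ip_neg_left, ip_neg_right, ip_neg_right, hθ, hβ, h, hβθ]
    norm_num
  have hθγ : ip C6 θ γ = -1 := by rw [hγdef, ip_sub_right, ip_neg_right, hθ, h]; norm_num
  have hβγ : ip C6 β γ = -1 := by rw [hγdef, ip_sub_right, ip_neg_right, hβθ, hβ]; norm_num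
  obtain ⟨_, a2, a3, _, _⟩ := f_ACT 6 C6 K θ (1 : K) hθ
  obtain ⟨b1, b2, b3, _, _⟩ := f_ACT 6 C6 K β (1 : K) hβ
  have e1 : β + γ = -θ := by rw [hγdef]; abel
  have e2 : θ + γ = -β := by rw [hγdef]; abel
  rw [b2 γ hγ hβγ, a2 γ hγ hθγ, e1, e2, TPF_xe_add, TPF_xe_add, TPF_xe_smul, TPF_xe_smul, a3, b3, a2 γ hγ hθγ, b2 γ hγ hβγ,
    e1, e2] at key
  have k2 := congrArg (fun x : Lm C6 K => cf x θ) key
  have n1 : θ ≠ γ := by
    intro e
    rw [← e] at hθγ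
    omega
  have n2 : θ ≠ -β := by
    intro e
    have : ip C6 θ β = ip C6 (-β) β := by rw [← e]
    rw [ip_neg_left, hβ] at this
    omega
  have n3 : θ ≠ -θ := by
    intro e
    have : ip C6 θ θ = ip C6 (-θ) θ := by rw [← e]
    rw [ip_neg_left, hθ] at this
    omega
  have n4 : θ ≠ β := by
    intro e
    rw [← e] at h
    omega
  simp only [cf_add, cf_sub, cf_smul, cf_ht, cf_E C6 hγ, cf_E C6 hθ, cf_E C6 hβ, cf_E C6 (neg_root C6 hθ), cf_E C6 (neg_root C6 hβ),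
    if_neg n1, if_neg n2, if_neg n3, if_neg n4, if_true] at k2
  have := sg_ne_zero (F := K) C6 β γ
  apply this
  simpa using k2

/-- root elements of two opposite roots do not commute at `E γ` -/
theorem TFS_m2 {K : Type} [Field K] {θ γ : Fin 6 → ℤ} (hθ : ip C6 θ θ = 2) (hγ : ip C6 γ γ = 2) (hθγ : ip C6 θ γ = -1)
    (key : xe C6 (E C6 θ) 1 (xe C6 (E C6 (-θ)) 1 (E C6 γ : Lm C6 K)) =
      xe C6 (E C6 (-θ)) 1 (xe C6 (E C6 θ) 1 (E C6 γ : Lm C6 K))) : False := by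
  obtain ⟨_, a2, _, _, _⟩ := f_ACT 6 C6 K θ (1 : K) hθ
  obtain ⟨b1, b2, _, _, _⟩ := f_ACT 6 C6 K (-θ) (1 : K) (neg_root C6 hθ)
  have h1 : 0 ≤ ip C6 (-θ) γ := by rw [ip_neg_left, hθγ]; norm_num
  have hg : ip C6 (θ + γ) (θ + γ) = 2 := (add_root_iff hθ hγ).2 hθγ
  have h2 : ip C6 (-θ) (θ + γ) = -1 := by rw [ip_neg_left, ip_add_right, hθ, hθγ]; norm_num
  have e1 : -θ + (θ + γ) = γ := by abel
  rw [b1 γ hγ h1, a2 γ hγ hθγ, TPF_xe_add, TPF_xe_smul, b1 γ hγ h1, b2 (θ + γ) hg h2, e1] at key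
  have k2 := congrArg (fun x : Lm C6 K => cf x γ) key
  have n1 : γ ≠ θ + γ := by
    intro e
    have e' : θ = 0 := by
      have : θ + γ = 0 + γ := by rw [← e, zero_add]
      exact add_right_cancel this
    rw [e'] at hθ
    simp at hθ
  simp only [cf_add, cf_smul, cf_E C6 hγ, cf_E C6 hg, if_neg n1, if_true] at k2
  have q1 := sg_ne_zero (F := K) C6 θ γ
  have q2 := sg_ne_zero (F := K) C6 (-θ) (θ + γ)
  have : (sg C6 θ γ : K) * (sg C6 (-θ) (θ + γ) : K) = 0 := by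
    have := k2
    simp at this
    rcases this with h | h
    · exact absurd h q1
    · exact absurd h q2
  exact (mul_ne_zero q1 q2) this

theorem TFS (hRTF : RTF_stmt) (hWST : WST_stmt) (hWPS : WPS_stmt) (hESF : ESF_stmt) (hGFX : GFX_stmt) (hSGR : SGR_stmt) : TFS_stmt := by
  intro K _ τ hτ a b m hT
  obtain ⟨r1, r2, r3, r4, r5, -, -, -, -, -, -, -, -, rth, rip⟩ := hRTF
  have hn : ∀ α, ip C6 α α = 2 → ∃ β, ip C6 β β = 2 ∧ ip C6 α β = -1 := (f_NBR 6 C6 1 th _ f_DE6.2).1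
  obtain ⟨-, -, -, -, -, hG⟩ := hSGR K τ hτ
  obtain ⟨hE1, hE2⟩ := hESF K τ hτ
  obtain ⟨-, hF⟩ := hGFX K τ hτ
  obtain ⟨k, hk, β, hβ, hm, c, c', hcτ, hc'τ, hc, hc', ka, kb⟩ := hT
  have hki : k⁻¹ ∈ GS τ := inv_mem hk
  have ea : a = c • k⁻¹ (E C6 th) := by
    have h1 : k⁻¹ (k a) = k⁻¹ (c • E C6 th) := congrArg _ ka
    rw [map_smul] at h1
    rw [← h1]
    exact (k.symm_apply_apply a).symm
  have eb : b = c' • k⁻¹ (E C6 β) := by
    have h1 : k⁻¹ (k b) = k⁻¹ (c' • E C6 β) := congrArg _ kb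
    rw [map_smul] at h1
    rw [← h1]
    exact (k.symm_apply_apply b).symm
  have xa : ExS τ a := ⟨k⁻¹, hki, th, rth, c, hcτ, hc, ea⟩
  have xb : ExS τ b := ⟨k⁻¹, hki, β, hβ, c', hc'τ, hc', eb⟩
  have hTp : Tp C6 th a b m := ⟨k, (hG k hk).1, β, hβ.1, hm, c, c', hc, hc', ka, kb⟩
  obtain ⟨Exa, Exb, -, -, t6, t7, t8, t9⟩ := f_TPF 6 C6 K th rth.1 hn a b m hTp
  obtain ⟨hAu, -, hE, -⟩ := f_EXF 6 C6 K hn
  obtain ⟨Xa, -, -, -, ca, -⟩ := hE a Exa
  obtain ⟨Xb, -, -, -, cb, -⟩ := hE b Exb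
  have cast_ne : ∀ s : ℤ, (s = 1 ∨ s = -1) → (s : K) ≠ 0 := by
    rintro s (rfl | rfl) <;> simp
  refine ⟨xa, xb, ?_, ?_, ?_, t6, t7, t8, ?_⟩
  · obtain ⟨g, hg, s, s', hs, hs', g1, g2⟩ := hWPS K τ hτ β th th β hβ.1 rth.1
      (hWST.1 β th th β hβ rth rth hβ (ip_comm C6 β th))
    refine ⟨g * k, mul_mem hg hk, β, hβ, hm, c' * (s : K), c * (s' : K), ?_, ?_, ?_, ?_, ?_, ?_⟩
    · rw [map_mul, hc'τ, map_intCast]
    · rw [map_mul, hcτ, map_intCast]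
    · exact mul_ne_zero hc' (cast_ne s hs)
    · exact mul_ne_zero hc (cast_ne s' hs')
    · have : (g * k) b = g (k b) := rfl
      rw [this, kb, map_smul, g1, smul_smul]
    · have : (g * k) a = g (k a) := rfl
      rw [this, ka, map_smul, g2, smul_smul]
  · intro k' hk'
    refine ⟨k * k'⁻¹, mul_mem hk (inv_mem hk'), β, hβ, hm, c, c', hcτ, hc'τ, hc, hc', ?_, ?_⟩
    · have : (k * k'⁻¹) (k' a) = k a := congrArg k (k'.symm_apply_apply a)
      rw [this, ka]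
    · have : (k * k'⁻¹) (k' b) = k b := congrArg k (k'.symm_apply_apply b)
      rw [this, kb]
  · intro c₁ c₂ hτ1 hτ2 h1 h2
    refine ⟨k, hk, β, hβ, hm, c₁ * c, c₂ * c', ?_, ?_, mul_ne_zero h1 hc, mul_ne_zero h2 hc', ?_, ?_⟩
    · rw [map_mul, hτ1, hcτ]
    · rw [map_mul, hτ2, hc'τ]
    · rw [map_smul, ka, smul_smul]
    · rw [map_smul, kb, smul_smul]
  · constructor
    · intro hcom
      by_contra hneg
      push Not at hneg
      have hτi : ∀ x : K, τ x = x → τ x⁻¹ = x⁻¹ := fun x hx => by rw [map_inv₀, hx]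
      obtain ⟨f, hf, fX⟩ := (hF a xa).1 c⁻¹ (hτi c hcτ)
      obtain ⟨f', hf', fX'⟩ := (hF b xb).1 c'⁻¹ (hτi c' hc'τ)
      have comm := hcom ⟨f, hf⟩ ⟨f', hf'⟩ ⟨c⁻¹, hτi c hcτ, fX⟩ ⟨c'⁻¹, hτi c' hc'τ, fX'⟩
      have comm' : f * f' = f' * f := congrArg Subtype.val comm
      have cm : ∀ v : LT τ, xe C6 a c⁻¹ (xe C6 b c'⁻¹ (v : Lm C6 K)) = xe C6 b c'⁻¹ (xe C6 a c⁻¹ (v : Lm C6 K)) := by
        intro v
        have h1 : f (f' v) = f' (f v) := congrArg (fun p : Equiv.Perm (LT τ) => p v) comm'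
        have h2 := congrArg (fun w : LT τ => (w : Lm C6 K)) h1
        rw [fX, fX', fX', fX] at h2
        exact h2
      -- transport by `k`
      obtain ⟨-, Auk, hsk⟩ := hG k hk
      obtain ⟨-, -, hski⟩ := hG k⁻¹ hki
      have key : ∀ w : Lm C6 K, si τ w = w →
          xe C6 (E C6 th) 1 (xe C6 (E C6 β) 1 w) = xe C6 (E C6 β) 1 (xe C6 (E C6 th) 1 w) := by
        intro w hw
        have h1 : si τ (k⁻¹ w) = k⁻¹ w := by rw [hski, hw]
        have h2 := congrArg k (cm ⟨k⁻¹ w, h1⟩)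
        have Ka := ((f_XAU 6 C6 K a Xa).2.2.1 k Auk).2
        have Kb := ((f_XAU 6 C6 K b Xb).2.2.1 k Auk).2
        have kk : k (k⁻¹ w) = w := k.apply_symm_apply w
        simp only at h2
        rw [Ka, Kb, Kb, Ka, kk, ka, kb, TPF_xe_smul_left, TPF_xe_smul_left, TPF_xe_smul_left, TPF_xe_smul_left,
          mul_inv_cancel₀ hc, mul_inv_cancel₀ hc'] at h2
        exact h2
      have hab := ip_abs_le rth.1 hβ.1
      have fixE : ∀ γ, LR γ → si τ (E C6 γ : Lm C6 K) = E C6 γ := fun γ hγ => (hE2 _ (hE1 γ hγ)).2.2.1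
      have hm' : m = -1 ∨ m = -2 := by omega
      rcases hm' with e | e
      · refine TFS_m1 rth.1 hβ.1 (by rw [hm, e]) (key _ (fixE _ ⟨?_, ?_⟩))
        · have h0 : ip C6 th β = -1 := by rw [hm, e]
          have h0' : ip C6 β th = -1 := by rw [ip_comm]; exact h0
          rw [ip_sub_left, ip_sub_right, ip_sub_right, ip_neg_left, ip_neg_left, ip_neg_right, ip_neg_right, rth.1, hβ.1, h0, h0']
          norm_num
        · rw [sub_eq_add_neg, r3, r4, r4, rth.2, hβ.2]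
      · have e' : β = -th := eq_neg_of_ip_eq_neg_two rth.1 hβ.1 (by rw [hm, e])
        rw [e'] at key
        have hp1 : pn 1 = 1 := rfl
        have g1 : ip C6 (-sr 1) (-sr 1) = 2 := neg_root C6 (ip_sr_self C6 1)
        have g2 : pv (-sr 1) = -sr 1 := by rw [r4, r5, hp1]
        refine TFS_m2 (θ := th) (γ := -sr 1) rth.1 g1 ?_ (key _ (fixE _ ⟨g1, g2⟩))
        rw [rip]
        simp [sr]
    · intro hm0 f f' hX gX
      obtain ⟨s, -, hX⟩ := hX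
      obtain ⟨t, -, gX⟩ := gX
      obtain ⟨h, hh, hhX⟩ := ca s
      obtain ⟨g, hg, hgX⟩ := cb t
      have comm := (t9.2 hm0) ⟨h, hh⟩ ⟨g, hg⟩ ⟨_, hhX⟩ ⟨_, hgX⟩
      have comm' : h * g = g * h := congrArg Subtype.val comm
      apply Subtype.ext
      apply Equiv.ext
      intro v
      apply Subtype.ext
      have e1 : (((f * f' : GF τ) : Equiv.Perm (LT τ)) v : Lm C6 K) = xe C6 a s (xe C6 b t (v : Lm C6 K)) := by
        have : (((f * f' : GF τ) : Equiv.Perm (LT τ)) v) = (f : Equiv.Perm (LT τ)) ((f' : Equiv.Perm (LT τ)) v) := rfl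
        rw [this, hX, gX]
      have e2 : (((f' * f : GF τ) : Equiv.Perm (LT τ)) v : Lm C6 K) = xe C6 b t (xe C6 a s (v : Lm C6 K)) := by
        have : (((f' * f : GF τ) : Equiv.Perm (LT τ)) v) = (f' : Equiv.Perm (LT τ)) ((f : Equiv.Perm (LT τ)) v) := rfl
        rw [this, gX, hX]
      rw [e1, e2]
      have e3 : h (g (v : Lm C6 K)) = g (h (v : Lm C6 K)) := congrArg (fun p : Lm C6 K ≃ₗ[K] Lm C6 K => p (v : Lm C6 K)) comm'
      rw [hgX, hhX, hhX, hgX] at e3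
      exact e3

end Pool.Agent.EXT
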